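import Pool.Agent.Helper93.GW.BksA
import Pool.Agent.Helper5.GK.M_SU2
import Pool.Agent.Helper40.GK.M_RES

/-!
# Module BKS of project GW (MP_b454d1): smooth blocks
-/

set_option autoImplicit false

namespace Pool.Agent.Helper93.GW

open Finset ArithmeticFunction MeasureTheory
open Pool.Agent.Helper48.BK (ex th Sx Apx)
open Pool.Agent.Helper2.MR (ch)
open Pool.Agent.Helper15.AB (IsW)
open Pool.Agent.Helper23.GK
open Pool.Agent.Helper63.GW

/-- complex partial summation on `Ioc` -/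
theorem abel_ioc (c g : ℕ → ℂ) (M N : ℕ) (h : M ≤ N) :
    ∑ n ∈ Ioc M N, c n * g n = (∑ n ∈ Ioc M N, c n) * g N -
      ∑ n ∈ Ico M N, (∑ m ∈ Ioc M n, c m) * (g (n + 1) - g n) := by
  induction N, h using Nat.le_induction with
  | base => simp
  | succ N hN ih =>
    rw [Finset.sum_Ioc_succ_top hN, Finset.sum_Ioc_succ_top hN, Finset.sum_Ico_succ_top hN, ih]
    ring

theorem abel_ioc_le (c g : ℕ → ℂ) (M N : ℕ) (hMN : M ≤ N) (D V G : ℝ) (hD : 0 ≤ D)
    (hS : ∀ n, M ≤ n → n ≤ N → ‖∑ m ∈ Ioc M n, c m‖ ≤ D) (hG : ‖g N‖ ≤ G)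
    (hV : ∑ n ∈ Ico M N, ‖g (n + 1) - g n‖ ≤ V) :
    ‖∑ n ∈ Ioc M N, c n * g n‖ ≤ D * (G + V) := by
  rw [abel_ioc c g M N hMN]
  refine (norm_sub_le _ _).trans ?_
  have h1 : ‖(∑ n ∈ Ioc M N, c n) * g N‖ ≤ D * G := by
    rw [norm_mul]
    exact mul_le_mul (hS N hMN le_rfl) hG (norm_nonneg _) hD
  have h2 : ‖∑ n ∈ Ico M N, (∑ m ∈ Ioc M n, c m) * (g (n + 1) - g n)‖ ≤ D * V := by
    refine (norm_sum_le _ _).trans ?_
    refine le_trans ?_ (mul_le_mul_of_nonneg_left hV hD)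
    rw [Finset.mul_sum]
    refine Finset.sum_le_sum fun n hn => ?_
    obtain ⟨h3, h4⟩ := mem_Ico.1 hn
    rw [norm_mul]
    exact mul_le_mul_of_nonneg_right (hS n h3 h4.le) (norm_nonneg _)
  linarith

/-- the number of elements of a residue class in an interval -/
theorem class_card (M n q u : ℕ) (hq : 0 < q) (h : M ≤ n) :
    |(((Ioc M n).filter (fun m => m ≡ u [MOD q])).card : ℝ) - ((n : ℝ) - M) / q| ≤ 1 := by
  have h1 := Nat.Ioc_filter_modEq_card M n hq u
  have hq0 : (0 : ℚ) < q := by exact_mod_cast hq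
  have hmono : ⌊((M : ℚ) - u) / q⌋ ≤ ⌊((n : ℚ) - u) / q⌋ := by
    apply Int.floor_le_floor
    apply div_le_div_of_nonneg_right _ hq0.le
    have : (M : ℚ) ≤ n := by exact_mod_cast h
    linarith
  rw [max_eq_left (by linarith)] at h1
  have h2 : ((((Ioc M n).filter (fun m => m ≡ u [MOD q])).card : ℤ) : ℚ) =
      (⌊((n : ℚ) - u) / q⌋ : ℚ) - ⌊((M : ℚ) - u) / q⌋ := by
    rw [h1]; push_cast; ring
  have a1 := Int.floor_le (((n : ℚ) - u) / q)
  have a2 := Int.lt_floor_add_one (((n : ℚ) - u) / q)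
  have a3 := Int.floor_le (((M : ℚ) - u) / q)
  have a4 := Int.lt_floor_add_one (((M : ℚ) - u) / q)
  have h3 : ((n : ℚ) - u) / q - ((M : ℚ) - u) / q = ((n : ℚ) - M) / q := by ring
  have h4 : |((((Ioc M n).filter (fun m => m ≡ u [MOD q])).card : ℕ) : ℚ) -
      ((n : ℚ) - M) / q| ≤ 1 := by
    rw [Int.cast_natCast] at h2
    rw [h2, abs_le]
    constructor
    · linarith
    · linarith
  have h5 : ((|((((Ioc M n).filter (fun m => m ≡ u [MOD q])).card : ℕ) : ℚ) -
      ((n : ℚ) - M) / q| : ℚ) : ℝ) ≤ ((1 : ℚ) : ℝ) := by exact_mod_cast h4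
  push_cast at h5
  exact h5

/-- a class sum is the `q`-th part of the full sum up to the variation -/
theorem class_sum (f : ℕ → ℂ) (M N q u : ℕ) (hq : 0 < q) (hMN : M ≤ N) (G V : ℝ)
    (hG : ‖f N‖ ≤ G) (hV : ∑ n ∈ Ico M N, ‖f (n + 1) - f n‖ ≤ V) :
    ‖∑ n ∈ (Ioc M N).filter (fun n => n ≡ u [MOD q]), f n‖ ≤
      ‖∑ n ∈ Ioc M N, f n‖ / q + (G + V) := by
  classical
  have hq0 : (0 : ℝ) < q := by exact_mod_cast hq
  set c : ℕ → ℂ := fun n => (if n ≡ u [MOD q] then 1 else 0) - 1 / (q : ℂ) with hc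
  have h1 : ∑ n ∈ (Ioc M N).filter (fun n => n ≡ u [MOD q]), f n =
      (∑ n ∈ Ioc M N, f n) / q + ∑ n ∈ Ioc M N, c n * f n := by
    rw [Finset.sum_filter, Finset.sum_div, ← Finset.sum_add_distrib]
    refine Finset.sum_congr rfl fun n _ => ?_
    rw [hc]
    dsimp only
    split_ifs
    · ring
    · ring
  rw [h1]
  refine (norm_add_le _ _).trans (add_le_add ?_ ?_)
  · rw [norm_div, Complex.norm_natCast]
  · have h2 := abel_ioc_le c f M N hMN 1 V G zero_le_one ?_ hG hV
    · rwa [one_mul] at h2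
    · intro n h3 _
      have h4 : ∑ m ∈ Ioc M n, c m =
          (((((Ioc M n).filter (fun m => m ≡ u [MOD q])).card : ℝ) - ((n : ℝ) - M) / q : ℝ) : ℂ) := by
        rw [hc]
        rw [Finset.sum_sub_distrib, Finset.sum_const, Nat.card_Ioc, ← Finset.sum_filter,
          Finset.sum_const, nsmul_eq_mul, nsmul_eq_mul]
        push_cast [Nat.cast_sub h3]
        ring
      rw [h4, Complex.norm_real, Real.norm_eq_abs]
      exact class_card M n q u hq h3

theorem ch_lip (τ : ℝ) {n : ℕ} (hn : 1 ≤ n) : ‖ch τ (n + 1) - ch τ n‖ ≤ |τ| / n := by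
  have hn0 : (0 : ℝ) < n := by exact_mod_cast hn
  rw [ch_succ]
  have e : ch τ n * Complex.exp (((-(τ * hh n) : ℝ) : ℂ) * Complex.I) - ch τ n =
      ch τ n * (Complex.exp (((-(τ * hh n) : ℝ) : ℂ) * Complex.I) - 1) := by ring
  rw [e, norm_mul, norm_ch, one_mul]
  have h1 := Real.norm_exp_I_mul_ofReal_sub_one_le (x := -(τ * hh n))
  rw [mul_comm] at h1
  refine h1.trans ?_
  rw [Real.norm_eq_abs, abs_neg, abs_mul, abs_of_nonneg (hh_nonneg hn), div_eq_mul_one_div]
  exact mul_le_mul_of_nonneg_left (hh_upper hn) (abs_nonneg _)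

theorem hBKS : StCsv → StBkb → StBks := by
  intro hCsv hBkb
  obtain ⟨C, hC, hcsv⟩ := hCsv
  obtain ⟨-, -, -, hbd⟩ := hBkb
  refine ⟨12 + 153 * (C + 4) + 500, by positivity, ?_⟩
  intro q _ χ i e τ hi hτ
  have hq : 0 < q := Nat.pos_of_ne_zero (NeZero.ne q)
  have hq0 : (0 : ℝ) < q := by exact_mod_cast hq
  have hq1 : (1 : ℝ) ≤ q := by exact_mod_cast hq
  have hτ0 : 0 < |τ| := by linarith
  have he0 : (0 : ℝ) ≤ e := Nat.cast_nonneg e
  have h2e : (0 : ℝ) < 2 ^ e := by positivity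
  set R : ℝ := 1 / τ ^ 2 + 1 / √((2 : ℝ) ^ e) + √|τ| / 2 ^ e with hR
  have hτsq : 0 < τ ^ 2 := by rw [← sq_abs]; positivity
  have hsq : 0 < √((2 : ℝ) ^ e) := Real.sqrt_pos.2 h2e
  have hR1 : 1 / τ ^ 2 ≤ R := by
    have : 0 ≤ 1 / √((2 : ℝ) ^ e) + √|τ| / 2 ^ e := by positivity
    linarith
  have hR2 : 1 / √((2 : ℝ) ^ e) ≤ R := by
    have : 0 ≤ 1 / τ ^ 2 + √|τ| / 2 ^ e := by positivity
    linarith
  have hR3 : √|τ| / 2 ^ e ≤ R := by
    have : 0 ≤ 1 / τ ^ 2 + 1 / √((2 : ℝ) ^ e) := by positivity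
    linarith
  have hR0 : 0 < R := lt_of_lt_of_le (by positivity) hR1
  have hqq : (q : ℝ) ≤ q ^ 2 := by nlinarith
  -- it is enough to bound by a multiple of `q² (1+e) R`
  have hfinal : ∀ K : ℝ, 0 ≤ K → K ≤ 12 + 153 * (C + 4) + 500 →
      ‖bk χ i e τ‖ ≤ K * q ^ 2 * (1 + e) * R →
      ‖bk χ i e τ‖ ≤ (12 + 153 * (C + 4) + 500) * q ^ 2 * (1 + e) * R := by
    intro K hK0 hK h
    refine h.trans ?_
    have : 0 ≤ (q : ℝ) ^ 2 * (1 + e) * R := by positivity
    nlinarith
  by_cases hbig : 2 ^ e < 8 * q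
  · -- trivial bound
    refine hfinal 12 (by norm_num) (by nlinarith) ?_
    refine (hbd q χ i e τ).trans ?_
    have h1 : √((2 : ℝ) ^ e) ≤ 3 * q := by
      rw [Real.sqrt_le_left (by positivity)]
      have h2 : (2 : ℝ) ^ e < 8 * q := by exact_mod_cast hbig
      nlinarith
    have h2 : 1 / 3 ≤ (q : ℝ) ^ 2 * (1 / √((2 : ℝ) ^ e)) := by
      rw [mul_one_div, div_le_div_iff₀ (by norm_num) hsq]
      nlinarith
    have h3 : 1 / 3 ≤ (q : ℝ) ^ 2 * R := h2.trans (mul_le_mul_of_nonneg_left hR2 (by positivity))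
    nlinarith
  · have hbig' : 8 * q ≤ 2 ^ e := by omega
    have he : e ≠ 0 := by
      rintro rfl
      rw [pow_zero] at hbig'
      omega
    obtain ⟨d, rfl⟩ : ∃ d, e = d + 1 := ⟨e - 1, by omega⟩
    set a : ℕ := 2 ^ d with ha
    have har : ((a : ℕ) : ℝ) = 2 ^ d := by rw [ha]; push_cast; ring
    have ha1 : 1 ≤ a := Nat.one_le_two_pow
    have ha0 : (0 : ℝ) < a := by exact_mod_cast ha1
    have h2a : (2 : ℝ) ^ (d + 1) = 2 * a := by rw [har]; ring
    have h2an : 2 ^ (d + 1) = 2 * a := by rw [ha]; ring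
    have h4a : 2 ^ (d + 2) = 4 * a := by rw [ha]; ring
    have h4q : 4 * q ≤ a := by omega
    by_cases hcase : √((2 : ℝ) ^ (d + 1)) ≤ |τ|
    · -- large `|τ|`: van der Corput
      have hst : 1 ≤ √|τ| := by rw [Real.one_le_sqrt]; exact hτ
      have hpc : ∀ N n u : ℕ, 4 * q ≤ N → N ≤ n → n ≤ 2 * N →
          ‖∑ m ∈ (Ioc N n).filter (fun m => m ≡ u [MOD q]), ch τ m‖ ≤
            (C + 4) * (N / (q * |τ|) + √|τ|) := by
        intro N n u h1 h2 h3
        obtain ⟨m0, m1, θ, hθ0, hθ1, hm1, hm2, hm3, hm4, hm5⟩ :=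
          Pool.Agent.Helper40.GK.hRES N n q u τ h2 h3 hq
        have hm0 : 1 ≤ m0 := by
          by_contra h0
          have : m0 = 0 := by omega
          subst this
          have : m1 = 0 := by omega
          nlinarith
        have hm0r : (0 : ℝ) < m0 := by exact_mod_cast hm0
        have hmN : (m0 : ℝ) ≤ N / q := by
          rw [le_div_iff₀ hq0]
          have : (q : ℝ) * m0 ≤ N := by exact_mod_cast hm3
          linarith
        have hNq : (m0 : ℝ) / |τ| ≤ N / (q * |τ|) := by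
          rw [← div_div]
          exact div_le_div_of_nonneg_right hmN hτ0.le
        obtain ⟨hk1, hk2⟩ := hcsv m0 m1 τ θ hm0 hm1 (by omega) hθ0 hθ1 hτ
        have hk : ‖∑ m ∈ Ioc m0 m1, cs τ θ m‖ ≤ C * (N / (q * |τ|) + √|τ|) := by
          rcases le_total |τ| (m0 : ℝ) with hle | hle
          · refine (hk1 hle).trans ?_
            rw [mul_div_assoc]
            refine mul_le_mul_of_nonneg_left ?_ hC.le
            have := Real.sqrt_nonneg |τ|
            linarith
          · refine (hk2 hle).trans ?_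
            refine mul_le_mul_of_nonneg_left ?_ hC.le
            have : 0 ≤ (N : ℝ) / (q * |τ|) := by positivity
            linarith
        refine hm5.trans ?_
        have : 0 ≤ (N : ℝ) / (q * |τ|) := by positivity
        nlinarith
      set D1 : ℝ := 3 * (C + 4) * (a / (q * |τ|) + √|τ|) with hD1
      have hcls : ∀ n u : ℕ, a ≤ n → n ≤ 4 * a →
          ‖∑ m ∈ (Ioc a n).filter (fun m => m ≡ u [MOD q]), ch τ m‖ ≤ D1 := by
        intro n u h1 h2
        have hx : 0 ≤ (a : ℝ) / (q * |τ|) := by positivity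
        have hy := Real.sqrt_nonneg |τ|
        by_cases h3 : n ≤ 2 * a
        · refine (hpc a n u h4q h1 h3).trans ?_
          rw [hD1]
          nlinarith
        · have h4 : Ioc a n = Ioc a (2 * a) ∪ Ioc (2 * a) n := by
            ext m
            simp only [mem_Ioc, mem_union]
            omega
          have h5 : Disjoint ((Ioc a (2 * a)).filter (fun m => m ≡ u [MOD q]))
              ((Ioc (2 * a) n).filter (fun m => m ≡ u [MOD q])) := by
            rw [Finset.disjoint_left]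
            intro m hm hm'
            have h6 := (mem_Ioc.1 (mem_filter.1 hm).1).2
            have h7 := (mem_Ioc.1 (mem_filter.1 hm').1).1
            omega
          rw [h4, Finset.filter_union, Finset.sum_union h5]
          refine (norm_add_le _ _).trans ?_
          have h6 := hpc a (2 * a) u h4q (by omega) le_rfl
          have h8 := hpc (2 * a) n u (by omega) (by omega) (by omega)
          push_cast at h8
          have h9 : 2 * (a : ℝ) / (q * |τ|) = 2 * (a / (q * |τ|)) := by ring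
          rw [h9] at h8
          rw [hD1]
          nlinarith
      have hS : ∀ n, a ≤ n → n ≤ 4 * a → ‖∑ m ∈ Ioc a n, χ ((m : ℕ) : ZMod q) * ch τ m‖ ≤
          q * D1 := fun n h1 h2 =>
        Pool.Agent.Helper5.GK.split_su2 χ τ a n _ fun u => hcls n u h1 h2
      have hvar := gW_var i hi d a (4 * a) (by rw [ha]) (by omega) (by rw [h4a])
      have hend : |gW i (d + 1) (4 * a)| ≤ (1 + ((d + 1 : ℕ) : ℝ)) / 2 ^ d := by
        refine (gW_abs i hi (n := 4 * a) (by omega) (by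
          show 4 * a ≤ 2 ^ (d + 2)
          rw [h4a])).trans ?_
        rw [← har]
        refine div_le_div_of_nonneg_left (by positivity) ha0 ?_
        push_cast
        linarith
      have key := abel_bv (fun n => χ ((n : ℕ) : ZMod q) * ch τ n) (gW i (d + 1)) a (4 * a)
        (by omega) (q * D1) _ _ (by positivity) hS hend hvar
      refine hfinal (153 * (C + 4)) (by positivity) (by linarith) ?_
      rw [bk_eq χ i hi d τ, h4a, ← ha]
      refine key.trans ?_
      have h1 : q * D1 * ((1 + ((d + 1 : ℕ) : ℝ)) / 2 ^ d +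
          16 * (1 + ((d + 1 : ℕ) : ℝ)) / 2 ^ d) =
          (C + 4) * (1 + ((d + 1 : ℕ) : ℝ)) * (51 * (1 / |τ|) + 102 * q * (√|τ| / (2 * a))) := by
        rw [← har, hD1]
        field_simp
        ring
      rw [h1]
      have h2 : 1 / |τ| ≤ R := (one_div_le_one_div_of_le hsq hcase).trans hR2
      have h3 : √|τ| / (2 * a) ≤ R := by rw [← h2a]; exact hR3
      have h4 : 51 * (1 / |τ|) + 102 * q * (√|τ| / (2 * a)) ≤ 102 * q ^ 2 * R + 51 * q ^ 2 * R := by
        have h5 : 102 * q * (√|τ| / (2 * a)) ≤ 102 * q * R :=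
          mul_le_mul_of_nonneg_left h3 (by positivity)
        have h6 : (q : ℝ) * R ≤ q ^ 2 * R := mul_le_mul_of_nonneg_right hqq hR0.le
        have h7 : R ≤ q ^ 2 * R := by nlinarith
        nlinarith
      calc (C + 4) * (1 + ((d + 1 : ℕ) : ℝ)) * (51 * (1 / |τ|) + 102 * q * (√|τ| / (2 * a)))
          ≤ (C + 4) * (1 + ((d + 1 : ℕ) : ℝ)) * (102 * q ^ 2 * R + 51 * q ^ 2 * R) :=
            mul_le_mul_of_nonneg_left h4 (by positivity)
        _ = 153 * (C + 4) * q ^ 2 * (1 + ((d + 1 : ℕ) : ℝ)) * R := by ring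
    · -- small `|τ|`
      push Not at hcase
      set f : ℕ → ℂ := fun n => ch τ n * ((gW i (d + 1) n : ℝ) : ℂ) with hf
      have hwa : f a = 0 := by
        rw [hf]
        dsimp only
        unfold gW
        rw [w0_zero i hi ha1 le_rfl]
        simp
      have hwb : f (4 * a) = 0 := by
        rw [hf]
        dsimp only
        unfold gW
        rw [ha, w0_end i hi]
        simp
      have hG : ‖f (4 * a)‖ ≤ 0 := by rw [hwb, norm_zero]
      have hvar := gW_var i hi d a (4 * a) (by rw [ha]) (by omega) (by rw [h4a])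
      have hV : ∑ n ∈ Ico a (4 * a), ‖f (n + 1) - f n‖ ≤
          16 * (1 + ((d + 1 : ℕ) : ℝ)) / 2 ^ d + (1 + ((d + 1 : ℕ) : ℝ)) * |τ| * (3 / a) := by
        have h1 : ∀ n ∈ Ico a (4 * a), ‖f (n + 1) - f n‖ ≤
            |gW i (d + 1) (n + 1) - gW i (d + 1) n| +
              (1 + ((d + 1 : ℕ) : ℝ)) * |τ| * ((1 : ℝ) / (n : ℝ) ^ 2) := by
          intro n hn
          obtain ⟨hn1, hn2⟩ := mem_Ico.1 hn
          have hn3 : 1 ≤ n := ha1.trans hn1
          have hn0 : (0 : ℝ) < n := by exact_mod_cast hn3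
          have e1 : f (n + 1) - f n = ch τ (n + 1) *
              ((gW i (d + 1) (n + 1) - gW i (d + 1) n : ℝ) : ℂ) +
              (ch τ (n + 1) - ch τ n) * ((gW i (d + 1) n : ℝ) : ℂ) := by
            rw [hf]
            push_cast
            ring
          rw [e1]
          refine (norm_add_le _ _).trans (add_le_add ?_ ?_)
          · rw [norm_mul, norm_ch, one_mul, Complex.norm_real, Real.norm_eq_abs]
          · rw [norm_mul, Complex.norm_real, Real.norm_eq_abs]
            have h2 := gW_abs i hi (e := d + 1) hn3 (by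
              show n ≤ 2 ^ (d + 2)
              omega)
            have h3 := ch_lip τ hn3
            calc ‖ch τ (n + 1) - ch τ n‖ * |gW i (d + 1) n| ≤
                |τ| / n * ((1 + ((d + 1 : ℕ) : ℝ)) / n) :=
                  mul_le_mul h3 h2 (abs_nonneg _) (by positivity)
              _ = (1 + ((d + 1 : ℕ) : ℝ)) * |τ| * ((1 : ℝ) / (n : ℝ) ^ 2) := by
                  field_simp
        refine (Finset.sum_le_sum h1).trans ?_
        rw [Finset.sum_add_distrib, ← Finset.mul_sum]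
        exact add_le_add hvar (mul_le_mul_of_nonneg_left (sum_inv_sq ha1 le_rfl) (by positivity))
      have hcl : ∀ u : ℕ, ‖∑ n ∈ (Ioc a (4 * a)).filter (fun n => n ≡ u [MOD q]), f n‖ ≤
          ‖∑ n ∈ Ioc a (4 * a), f n‖ / q + (0 +
            (16 * (1 + ((d + 1 : ℕ) : ℝ)) / 2 ^ d + (1 + ((d + 1 : ℕ) : ℝ)) * |τ| * (3 / a))) :=
        fun u => class_sum f a (4 * a) q u hq (by omega) _ _ hG hV
      have hsplit := Pool.Agent.Helper64.GK.res_split χ (Ioc a (4 * a)) f _ hcl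
      have hfull : ∑ n ∈ Ioc a (4 * a), f n = ∑ n ∈ Ico a (4 * a), f n := by
        have h1 := Finset.sum_Ioc_add_eq_sum_Icc (f := f) (show a ≤ 4 * a by omega)
        have h2 := Finset.sum_Ico_add_eq_sum_Icc (f := f) (show a ≤ 4 * a by omega)
        rw [hwa, add_zero] at h1
        rw [hwb, add_zero] at h2
        rw [h1, h2]
      have htent := sum_tent τ hτ i hi d
      rw [← ha] at htent
      refine hfinal 500 (by norm_num) (by nlinarith) ?_
      have hbk : bk χ i (d + 1) τ = ∑ n ∈ Ioc a (4 * a), χ ((n : ℕ) : ZMod q) * f n := by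
        rw [bk_eq χ i hi d τ, h4a, ← ha]
        refine Finset.sum_congr rfl fun n _ => ?_
        rw [hf]
        ring
      rw [hbk]
      refine hsplit.trans ?_
      rw [hfull]
      have h1 : (q : ℝ) * (‖∑ n ∈ Ico a (4 * a), f n‖ / q + (0 +
            (16 * (1 + ((d + 1 : ℕ) : ℝ)) / 2 ^ d + (1 + ((d + 1 : ℕ) : ℝ)) * |τ| * (3 / a)))) =
          ‖∑ n ∈ Ico a (4 * a), f n‖ + (1 + ((d + 1 : ℕ) : ℝ)) * (q * ((16 + 3 * |τ|) / a)) := by
        rw [← har]
        field_simp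
        ring
      rw [h1]
      have h2 : |τ| / a ≤ 2 * (1 / √((2 : ℝ) ^ (d + 1))) := by
        have h3 : √((2 : ℝ) ^ (d + 1)) * √((2 : ℝ) ^ (d + 1)) = 2 * a := by
          rw [Real.mul_self_sqrt h2e.le, h2a]
        rw [mul_one_div, div_le_div_iff₀ ha0 hsq]
        nlinarith [hcase.le]
      have h3 : (16 + 3 * |τ|) / a ≤ 19 * (|τ| / a) := by
        rw [← mul_div_assoc]
        exact div_le_div_of_nonneg_right (by linarith) ha0.le
      have h4 : ‖∑ n ∈ Ico a (4 * a), f n‖ ≤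
          (1 + ((d + 1 : ℕ) : ℝ)) * (60 * (1 / τ ^ 2) + 189 * (|τ| / a)) := by
        refine htent.trans (le_of_eq ?_)
        rw [← har]
        ring
      have h5 : |τ| / a ≤ 2 * R := by linarith
      have h6 : 0 ≤ |τ| / a := by positivity
      have h7 : R ≤ q ^ 2 * R := by nlinarith
      have h8 : (q : ℝ) * R ≤ q ^ 2 * R := mul_le_mul_of_nonneg_right hqq hR0.le
      have h9 : 60 * (1 / τ ^ 2) + 189 * (|τ| / a) + q * ((16 + 3 * |τ|) / a) ≤
          500 * q ^ 2 * R := by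
        have h10 : q * ((16 + 3 * |τ|) / a) ≤ q * (19 * (2 * R)) :=
          mul_le_mul_of_nonneg_left (by linarith) hq0.le
        nlinarith
      calc ‖∑ n ∈ Ico a (4 * a), f n‖ + (1 + ((d + 1 : ℕ) : ℝ)) * (q * ((16 + 3 * |τ|) / a))
          ≤ (1 + ((d + 1 : ℕ) : ℝ)) * (60 * (1 / τ ^ 2) + 189 * (|τ| / a)) +
            (1 + ((d + 1 : ℕ) : ℝ)) * (q * ((16 + 3 * |τ|) / a)) := by linarith
        _ = (1 + ((d + 1 : ℕ) : ℝ)) *
            (60 * (1 / τ ^ 2) + 189 * (|τ| / a) + q * ((16 + 3 * |τ|) / a)) := by ring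
        _ ≤ (1 + ((d + 1 : ℕ) : ℝ)) * (500 * q ^ 2 * R) :=
            mul_le_mul_of_nonneg_left h9 (by positivity)
        _ = 500 * q ^ 2 * (1 + ((d + 1 : ℕ) : ℝ)) * R := by ring

end Pool.Agent.Helper93.GW
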