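import Pool.Agent.Helper93.GW.Wt
import Pool.Agent.Helper5.GK.M_SU2

/-!
# Module BKT of project GW (MP_b454d1): every block of length `≥ X^{c₀}` is small
-/

set_option autoImplicit false

namespace Pool.Agent.Helper93.GW

open Finset ArithmeticFunction MeasureTheory
open Pool.Agent.Helper48.BK (ex th Sx Apx)
open Pool.Agent.Helper2.MR (ch)
open Pool.Agent.Helper15.AB (IsW)
open Pool.Agent.Helper23.GK
open Pool.Agent.Helper63.GW

theorem ev_bkt (K : ℝ) (B1 : ℕ) (c c₀ : ℝ) (hc : 0 < c) (hc₀ : 0 < c₀) :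
    ∃ X0 : ℕ, ∀ X : ℕ, X0 ≤ X → K ≤ Real.log X ∧ Real.log X ^ B1 ≤ (X : ℝ) ^ c ∧
      2 ≤ (X : ℝ) ^ c₀ ∧ 2 ≤ X := by
  have h1 : ∀ᶠ x : ℝ in Filter.atTop, K ≤ Real.log x :=
    Real.tendsto_log_atTop.eventually_ge_atTop K
  have h2 : ∀ᶠ x : ℝ in Filter.atTop, Real.log x ^ B1 ≤ x ^ c := by
    have h3 := (isLittleO_log_rpow_rpow_atTop (B1 : ℝ) hc).bound (zero_lt_one)
    filter_upwards [h3, Filter.eventually_ge_atTop (1 : ℝ)] with x hx hx1
    rw [Real.rpow_natCast, one_mul, Real.norm_of_nonneg (by positivity [Real.log_nonneg hx1]),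
      Real.norm_of_nonneg (by positivity)] at hx
    exact hx
  have h3 : ∀ᶠ x : ℝ in Filter.atTop, 2 ≤ x ^ c₀ :=
    (tendsto_rpow_atTop hc₀).eventually_ge_atTop 2
  have h4 := (tendsto_natCast_atTop_atTop (R := ℝ)).eventually (h1.and (h2.and h3))
  obtain ⟨X0, hX0⟩ := Filter.eventually_atTop.1 h4
  refine ⟨max X0 2, fun X hX => ?_⟩
  obtain ⟨h5, h6, h7⟩ := hX0 X ((le_max_left _ _).trans hX)
  exact ⟨h5, h6, h7, (le_max_right _ _).trans hX⟩

/-- the Möbius blocks -/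
theorem bk_mu {q : ℕ} (χ : DirichletCharacter ℂ q) (i : Fin 8) (hi : (i : ℕ) < 4) (d : ℕ) (τ : ℝ) :
    bk χ i (d + 1) τ = ∑ n ∈ Ioc (2 ^ d : ℕ) (2 * 2 ^ d), cmu χ n * ch τ n / (n : ℂ) := by
  classical
  unfold bk
  have hb : blk2 (d + 1) = Ioc (2 ^ d) (2 * 2 ^ d) := by
    unfold blk2
    rw [if_neg (by omega)]
    congr 1
    ring
  have h1 : ∀ n, w0 i (d + 1) n = if n ∈ Ioc (2 ^ d : ℕ) (2 * 2 ^ d) then ((moebius n : ℤ) : ℝ)
      else 0 := by
    intro n
    unfold w0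
    rw [if_pos hi, hb]
  have hsub : Ioc (2 ^ d : ℕ) (2 * 2 ^ d) ⊆ Icc 1 (2 ^ (d + 1 + 1)) := by
    intro n hn
    obtain ⟨h2, h3⟩ := mem_Ioc.1 hn
    have h4 : 2 ^ (d + 1 + 1) = 4 * 2 ^ d := by ring
    rw [mem_Icc, h4]
    constructor <;> omega
  rw [← Finset.sum_subset hsub]
  · refine Finset.sum_congr rfl fun n hn => ?_
    rw [h1, if_pos hn]
    unfold cmu
    push_cast
    ring
  · intro n _ hn
    rw [h1, if_neg hn]
    simp

theorem hBKT : StMobc → StEs2c → StBkt := by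
  intro hM hE A B c₀ hc₀
  obtain ⟨B1m, X0m, hmob⟩ := hM (A + 2) B (c₀ / 2) (by positivity)
  obtain ⟨C, c, hC, hc, hes⟩ := hE (c₀ / 2) (by positivity)
  set B1' : ℕ := A + 2 * B + 2 with hB1'
  obtain ⟨X0, hX0⟩ := ev_bkt (max 4 (408 * C)) B1' c (c₀ / 2) hc (by positivity)
  refine ⟨max B1m B1', max X0m X0, fun X hX q _ χ i e τ hq hX1 hX2 hτ1 hτ2 => ?_⟩
  obtain ⟨hL, hLc, h2c, hX2'⟩ := hX0 X ((le_max_right _ _).trans hX)
  set L : ℝ := Real.log X with hLdef
  have hL4 : 4 ≤ L := (le_max_left _ _).trans hL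
  have hLC : 408 * C ≤ L := (le_max_right _ _).trans hL
  have hL1 : 1 ≤ L := by linarith
  have hL0 : 0 < L := by linarith
  have hXr : (2 : ℝ) ≤ X := by exact_mod_cast hX2'
  have hXpos : (0 : ℝ) < X := by linarith
  have hcc : (X : ℝ) ^ c₀ = (X : ℝ) ^ (c₀ / 2) * (X : ℝ) ^ (c₀ / 2) := by
    rw [← Real.rpow_add hXpos]; ring_nf
  have h2c' : 2 * (X : ℝ) ^ (c₀ / 2) ≤ (X : ℝ) ^ c₀ := by
    rw [hcc]; nlinarith
  have he : e ≠ 0 := by
    rintro rfl
    rw [pow_zero] at hX1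
    linarith
  obtain ⟨d, rfl⟩ : ∃ d, e = d + 1 := ⟨e - 1, by omega⟩
  set N : ℕ := 2 ^ d with hN
  have hNr : ((N : ℕ) : ℝ) = 2 ^ d := by rw [hN]; push_cast; ring
  have h2N : (2 : ℝ) ^ (d + 1) = 2 * N := by rw [hNr]; ring
  have hN1 : 1 ≤ N := Nat.one_le_two_pow
  have hN0 : (0 : ℝ) < N := by exact_mod_cast hN1
  have hNlow : (X : ℝ) ^ (c₀ / 2) ≤ N := by
    rw [h2N] at hX1
    linarith
  have h2Nn : 2 ^ (d + 1) = 2 * N := by rw [hN]; ring
  have hτm : L ^ B1m ≤ |τ| := (pow_le_pow_right₀ hL1 (le_max_left _ _)).trans hτ1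
  have hτ' : L ^ B1' ≤ |τ| := (pow_le_pow_right₀ hL1 (le_max_right _ _)).trans hτ1
  have hτone : 1 ≤ |τ| := (one_le_pow₀ hL1).trans hτ'
  have hτ0 : 0 < |τ| := by linarith
  have hτ3 : |τ| ≤ (X : ℝ) ^ 2 := by nlinarith
  by_cases hi : (i : ℕ) < 4
  · -- Möbius blocks
    rw [bk_mu χ i hi d τ, ← hN]
    set δ : ℝ := 1 / L ^ (A + 2) with hδ
    have hδ0 : 0 < δ := by positivity
    have hT : ∀ n, N ≤ n → n ≤ 2 * N → ‖∑ m ∈ Ioc 0 n, cmu χ m * ch τ m‖ ≤ 2 * N * δ := by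
      intro n h1 h2
      have h1' : (N : ℝ) ≤ n := by exact_mod_cast h1
      have h2' : (n : ℝ) ≤ 2 * N := by exact_mod_cast h2
      refine (hmob X ((le_max_left _ _).trans hX) q χ n τ hq (hNlow.trans h1') ?_ hτm hτ3).trans ?_
      · rw [← h2Nn] at h2
        exact h2.trans hX2
      · rw [div_eq_mul_one_div]
        exact mul_le_mul_of_nonneg_right h2' hδ0.le
    have hS : ∀ n, N ≤ n → n ≤ 2 * N → ‖∑ m ∈ Ioc N n, cmu χ m * ch τ m‖ ≤ 4 * N * δ := by
      intro n h1 h2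
      have h3 := Finset.sum_Ioc_consecutive (fun m => cmu χ m * ch τ m) (Nat.zero_le N) h1
      have h4 : ∑ m ∈ Ioc N n, cmu χ m * ch τ m =
          ∑ m ∈ Ioc 0 n, cmu χ m * ch τ m - ∑ m ∈ Ioc 0 N, cmu χ m * ch τ m := by
        rw [← h3]
        ring
      rw [h4]
      refine (norm_sub_le _ _).trans ?_
      have h5 := hT n h1 h2
      have h6 := hT N le_rfl (by omega)
      linarith
    have h1 := Pool.Agent.Helper64.GK.abel_inv (fun n => cmu χ n * ch τ n) N (2 * N) (4 * N * δ)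
      (by positivity) hS hN1
    refine h1.trans ?_
    have h3 : 4 * N * δ / N = 4 * δ := by field_simp
    rw [h3, hδ, pow_add, mul_one_div, div_le_div_iff₀ (by positivity) (by positivity)]
    have h4 : (4 : ℝ) ≤ L ^ 2 := by nlinarith
    have h5 : 0 < L ^ A := by positivity
    nlinarith
  · -- smooth blocks
    have hi4 : 4 ≤ (i : ℕ) := by omega
    have hq0 : 0 < q := Nat.pos_of_ne_zero (NeZero.ne q)
    have hq1 : (1 : ℝ) ≤ q := by exact_mod_cast hq0
    set δ : ℝ := 1 / |τ| + (X : ℝ) ^ (-c) with hδ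
    have hδ0 : 0 ≤ δ := by positivity
    have hcls : ∀ n u : ℕ, N ≤ n → n ≤ 4 * N →
        ‖∑ m ∈ (Ioc N n).filter (fun m => m ≡ u [MOD q]), ch τ m‖ ≤ 3 * C * q * N * δ := by
      intro n u h1 h2
      by_cases h3 : n ≤ 2 * N
      · refine (hes X N n q u τ hXr hNlow h1 h3 hq0 hτone hτ3).trans ?_
        have h4 : 0 ≤ C * q * N * δ := by positivity
        nlinarith
      · have h4 : Ioc N n = Ioc N (2 * N) ∪ Ioc (2 * N) n := by
          ext m
          simp only [mem_Ioc, mem_union]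
          omega
        have h5 : Disjoint ((Ioc N (2 * N)).filter (fun m => m ≡ u [MOD q]))
            ((Ioc (2 * N) n).filter (fun m => m ≡ u [MOD q])) := by
          rw [Finset.disjoint_left]
          intro m hm hm'
          have h6 := (mem_Ioc.1 (mem_filter.1 hm).1).2
          have h7 := (mem_Ioc.1 (mem_filter.1 hm').1).1
          omega
        rw [h4, Finset.filter_union, Finset.sum_union h5]
        refine (norm_add_le _ _).trans ?_
        have h6 := hes X N (2 * N) q u τ hXr hNlow (by omega) le_rfl hq0 hτone hτ3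
        have h7 : (X : ℝ) ^ (c₀ / 2) ≤ ((2 * N : ℕ) : ℝ) := by
          push_cast; linarith
        have h8 := hes X (2 * N) n q u τ hXr h7 (by omega) (by omega) hq0 hτone hτ3
        push_cast at h8
        have h9 : C * q * (2 * N) * δ = 2 * (C * q * N * δ) := by ring
        rw [h9] at h8
        linarith
    have hS : ∀ n, N ≤ n → n ≤ 4 * N → ‖∑ m ∈ Ioc N n, χ ((m : ℕ) : ZMod q) * ch τ m‖ ≤
        q * (3 * C * q * N * δ) := fun n h1 h2 =>
      Pool.Agent.Helper5.GK.split_su2 χ τ N n _ fun u => hcls n u h1 h2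
    have h4N : 2 ^ (d + 2) = 4 * N := by rw [hN]; ring
    rw [bk_eq χ i hi4 d τ, h4N, ← hN]
    have hed : (0 : ℝ) ≤ ((d + 1 : ℕ) : ℝ) := Nat.cast_nonneg _
    have hvar := gW_var i hi4 d N (4 * N) le_rfl (by omega) (by rw [h4N])
    have hend : |gW i (d + 1) (4 * N)| ≤ (1 + ((d + 1 : ℕ) : ℝ)) / 2 ^ d := by
      refine (gW_abs i hi4 (n := 4 * N) (by omega) (by
        show 4 * N ≤ 2 ^ (d + 2)
        rw [h4N])).trans ?_
      rw [← hNr]
      refine div_le_div_of_nonneg_left (by positivity) hN0 ?_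
      push_cast
      linarith
    have key := abel_bv (fun n => χ ((n : ℕ) : ZMod q) * ch τ n) (gW i (d + 1)) N (4 * N) (by omega)
      (q * (3 * C * q * N * δ)) _ _ (by positivity) hS hend hvar
    refine key.trans ?_
    have h1 : q * (3 * C * q * N * δ) * ((1 + ((d + 1 : ℕ) : ℝ)) / 2 ^ d +
        16 * (1 + ((d + 1 : ℕ) : ℝ)) / 2 ^ d) = 51 * C * q ^ 2 * (1 + ((d + 1 : ℕ) : ℝ)) * δ := by
      rw [← hNr]
      field_simp
      ring
    rw [h1]
    -- the logarithms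
    have he4 : 1 + ((d + 1 : ℕ) : ℝ) ≤ 4 * L := by
      have h2 : ((2 : ℝ) ^ (d + 1)) ≤ (X : ℝ) ^ 2 := by exact_mod_cast hX2
      have h3 := Real.log_le_log (by positivity) h2
      rw [Real.log_pow, Real.log_pow] at h3
      have h4 := Real.log_two_gt_d9
      have h5 : (((d + 1 : ℕ)) : ℝ) * (2 / 3) ≤ ((d + 1 : ℕ) : ℝ) * Real.log 2 :=
        mul_le_mul_of_nonneg_left (by linarith) hed
      have h6 : ((d + 1 : ℕ) : ℝ) * Real.log 2 ≤ 2 * L := by
        rw [hLdef]; exact_mod_cast h3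
      linarith
    have hq2 : (q : ℝ) ^ 2 ≤ L ^ (2 * B) := by
      calc (q : ℝ) ^ 2 ≤ (L ^ B) ^ 2 := pow_le_pow_left₀ (by positivity) hq 2
        _ = L ^ (2 * B) := by rw [← pow_mul]; congr 1; ring
    have hδ2 : δ ≤ 2 / L ^ B1' := by
      have h2 : 1 / |τ| ≤ 1 / L ^ B1' := one_div_le_one_div_of_le (by positivity) hτ'
      have h3 : (X : ℝ) ^ (-c) ≤ 1 / L ^ B1' := by
        rw [Real.rpow_neg hXpos.le, ← one_div]
        exact one_div_le_one_div_of_le (by positivity) hLc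
      have h4 : 2 / L ^ B1' = 1 / L ^ B1' + 1 / L ^ B1' := by ring
      rw [h4]
      linarith
    calc 51 * C * q ^ 2 * (1 + ((d + 1 : ℕ) : ℝ)) * δ
        ≤ 51 * C * L ^ (2 * B) * (4 * L) * (2 / L ^ B1') := by
          refine mul_le_mul ?_ hδ2 hδ0 (by positivity)
          refine mul_le_mul ?_ he4 (by positivity) (by positivity)
          exact mul_le_mul_of_nonneg_left hq2 (by positivity)
      _ = 408 * C / L * (1 / L ^ A) := by
          rw [hB1']
          have : L ^ (A + 2 * B + 2) = L ^ A * L ^ (2 * B) * L * L := by ring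
          rw [this]
          field_simp
          ring
      _ ≤ 1 * (1 / L ^ A) := by
          refine mul_le_mul_of_nonneg_right ?_ (by positivity)
          rw [div_le_one hL0]
          exact hLC
      _ = 1 / L ^ A := one_mul _

end Pool.Agent.Helper93.GW
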