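import Pool.Agent.Helper93.GW.Wt

/-!
# Project GW, module BKS: the sum `∑ w(n) n^{-1-iτ}` of a tent
-/

set_option autoImplicit false

namespace Pool.Agent.Helper93.GW

open Finset ArithmeticFunction MeasureTheory
open Pool.Agent.Helper48.BK (ex th Sx Apx)
open Pool.Agent.Helper2.MR (ch)
open Pool.Agent.Helper15.AB (IsW)
open Pool.Agent.Helper23.GK
open Pool.Agent.Helper63.GW

theorem exp_two (x : ℝ) : ‖Complex.exp ((x : ℂ) * Complex.I) - 1 - (x : ℂ) * Complex.I‖ ≤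
    2 * x ^ 2 := by
  have hn : ‖(x : ℂ) * Complex.I‖ = |x| := by
    rw [norm_mul, Complex.norm_I, mul_one, Complex.norm_real, Real.norm_eq_abs]
  rcases le_total |x| 1 with h | h
  · have h1 := Complex.norm_exp_sub_one_sub_id_le (x := (x : ℂ) * Complex.I) (by rw [hn]; exact h)
    rw [hn, sq_abs] at h1
    nlinarith [sq_nonneg x]
  · have h1 : ‖Complex.exp ((x : ℂ) * Complex.I) - 1‖ ≤ |x| := by
      have := Real.norm_exp_I_mul_ofReal_sub_one_le (x := x)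
      rw [mul_comm, Real.norm_eq_abs] at this
      exact this
    refine (norm_sub_le _ _).trans ?_
    rw [hn]
    have h2 : |x| ≤ x ^ 2 := by
      rw [← sq_abs]
      nlinarith
    linarith

/-- complex partial summation on `Ico` -/
theorem abel_ico (c g : ℕ → ℂ) (M N : ℕ) (h : M ≤ N) :
    ∑ n ∈ Ico M N, c n * g n = (∑ n ∈ Ico M N, c n) * g N -
      ∑ n ∈ Ico M N, (∑ m ∈ Ico M (n + 1), c m) * (g (n + 1) - g n) := by
  induction N, h using Nat.le_induction with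
  | base => simp
  | succ N hN ih =>
    rw [Finset.sum_Ico_succ_top hN, Finset.sum_Ico_succ_top hN, Finset.sum_Ico_succ_top hN, ih,
      Finset.sum_Ico_succ_top hN]
    ring

theorem abel_ico_le (c g : ℕ → ℂ) (M N : ℕ) (hMN : M ≤ N) (D V G : ℝ) (hD : 0 ≤ D)
    (hS : ∀ n, M ≤ n → n ≤ N → ‖∑ m ∈ Ico M n, c m‖ ≤ D) (hG : ‖g N‖ ≤ G)
    (hV : ∑ n ∈ Ico M N, ‖g (n + 1) - g n‖ ≤ V) :
    ‖∑ n ∈ Ico M N, c n * g n‖ ≤ D * (G + V) := by
  rw [abel_ico c g M N hMN]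
  refine (norm_sub_le _ _).trans ?_
  have h1 : ‖(∑ n ∈ Ico M N, c n) * g N‖ ≤ D * G := by
    rw [norm_mul]
    exact mul_le_mul (hS N hMN le_rfl) hG (norm_nonneg _) hD
  have h2 : ‖∑ n ∈ Ico M N, (∑ m ∈ Ico M (n + 1), c m) * (g (n + 1) - g n)‖ ≤ D * V := by
    refine (norm_sum_le _ _).trans ?_
    refine le_trans ?_ (mul_le_mul_of_nonneg_left hV hD)
    rw [Finset.mul_sum]
    refine Finset.sum_le_sum fun n hn => ?_
    obtain ⟨h3, h4⟩ := mem_Ico.1 hn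
    rw [norm_mul]
    exact mul_le_mul_of_nonneg_right (hS (n + 1) (by omega) (by omega)) (norm_nonneg _)
  linarith

theorem norm_ch (τ : ℝ) (n : ℕ) : ‖ch τ n‖ = 1 := by
  unfold ch
  exact Complex.norm_exp_ofReal_mul_I _

/-- `log (n+1) - log n` -/
noncomputable def hh (n : ℕ) : ℝ := Real.log ((n + 1 : ℕ) : ℝ) - Real.log n

theorem hh_lower {n : ℕ} (hn : 1 ≤ n) : 1 / ((n : ℝ) + 1) ≤ hh n := by
  have hn0 : (0 : ℝ) < n := by exact_mod_cast hn
  unfold hh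
  have h4 := Real.log_le_sub_one_of_pos (show (0 : ℝ) < n / ((n + 1 : ℕ) : ℝ) by positivity)
  rw [Real.log_div hn0.ne' (by positivity)] at h4
  have h5 : (n : ℝ) / ((n + 1 : ℕ) : ℝ) - 1 = - (1 / ((n : ℝ) + 1)) := by
    push_cast; field_simp; ring
  linarith

theorem hh_upper {n : ℕ} (hn : 1 ≤ n) : hh n ≤ 1 / (n : ℝ) :=
  (le_abs_self _).trans (log_lip n hn)

theorem hh_nonneg {n : ℕ} (hn : 1 ≤ n) : 0 ≤ hh n :=
  le_trans (by positivity) (hh_lower hn)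

theorem hh_sq {n : ℕ} (hn : 1 ≤ n) : hh n ^ 2 ≤ 1 / (n : ℝ) ^ 2 := by
  have h1 := hh_upper hn
  have h2 := hh_nonneg hn
  calc hh n ^ 2 ≤ (1 / (n : ℝ)) ^ 2 := pow_le_pow_left₀ h2 h1 2
    _ = 1 / (n : ℝ) ^ 2 := by rw [one_div, inv_pow, one_div]

theorem ch_succ (τ : ℝ) (n : ℕ) :
    ch τ (n + 1) = ch τ n * Complex.exp (((-(τ * hh n) : ℝ) : ℂ) * Complex.I) := by
  unfold ch hh
  rw [← Complex.exp_add]
  congr 1
  push_cast
  ring

theorem ch_pred (τ : ℝ) (n : ℕ) :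
    ch τ n = ch τ (n + 1) * Complex.exp (((τ * hh n : ℝ) : ℂ) * Complex.I) := by
  rw [ch_succ, mul_assoc, ← Complex.exp_add]
  have : ((-(τ * hh n) : ℝ) : ℂ) * Complex.I + ((τ * hh n : ℝ) : ℂ) * Complex.I = 0 := by
    push_cast; ring
  rw [this, Complex.exp_zero, mul_one]

theorem sum_inv_sq {a b : ℕ} (ha : 1 ≤ a) (hb : b ≤ 4 * a) :
    ∑ n ∈ Ico a b, (1 : ℝ) / (n : ℝ) ^ 2 ≤ (3 : ℝ) / a := by
  have ha0 : (0 : ℝ) < a := by exact_mod_cast ha
  have h1 : ∀ n ∈ Ico a b, 1 / (n : ℝ) ^ 2 ≤ 1 / (a : ℝ) ^ 2 := by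
    intro n hn
    have h2 : (a : ℝ) ≤ n := by exact_mod_cast (mem_Ico.1 hn).1
    exact one_div_le_one_div_of_le (by positivity) (pow_le_pow_left₀ ha0.le h2 2)
  refine (Finset.sum_le_sum h1).trans ?_
  rw [Finset.sum_const, Nat.card_Ico, nsmul_eq_mul]
  have h3 : ((b - a : ℕ) : ℝ) ≤ 3 * a := by
    have : b - a ≤ 3 * a := by omega
    exact_mod_cast this
  calc ((b - a : ℕ) : ℝ) * (1 / (a : ℝ) ^ 2) ≤ (3 * a) * (1 / (a : ℝ) ^ 2) :=
        mul_le_mul_of_nonneg_right h3 (by positivity)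
    _ = 3 / a := by field_simp

/-- `∑ (n+1)^{-iτ} (log(n+1) - log n)` -/
theorem sum_ch_hh (τ : ℝ) (hτ : 1 ≤ |τ|) {a b : ℕ} (ha : 1 ≤ a) (hab : a ≤ b) (hb : b ≤ 4 * a) :
    ‖∑ n ∈ Ico a b, ch τ (n + 1) * ((hh n : ℝ) : ℂ)‖ ≤ 2 / |τ| + 6 * |τ| / a := by
  have hτ0 : 0 < |τ| := by linarith
  have ha0 : (0 : ℝ) < a := by exact_mod_cast ha
  have h1 : ((τ : ℝ) : ℂ) * Complex.I * ∑ n ∈ Ico a b, ch τ (n + 1) * ((hh n : ℝ) : ℂ) =
      - (ch τ b - ch τ a) - ∑ n ∈ Ico a b, ch τ (n + 1) *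
        (Complex.exp (((τ * hh n : ℝ) : ℂ) * Complex.I) - 1 - ((τ * hh n : ℝ) : ℂ) * Complex.I) := by
    rw [← Finset.sum_Ico_sub (fun n => ch τ n) hab, ← Finset.sum_neg_distrib,
      ← Finset.sum_sub_distrib, Finset.mul_sum]
    refine Finset.sum_congr rfl fun n _ => ?_
    have h2 := ch_pred τ n
    push_cast at h2 ⊢
    linear_combination -h2
  have h2 : |τ| * ‖∑ n ∈ Ico a b, ch τ (n + 1) * ((hh n : ℝ) : ℂ)‖ ≤ 2 + 2 * τ ^ 2 * (3 / a) := by
    have h3 := congrArg norm h1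
    rw [norm_mul, norm_mul, Complex.norm_I, mul_one, Complex.norm_real, Real.norm_eq_abs] at h3
    rw [h3]
    refine (norm_sub_le _ _).trans ?_
    have h4 : ‖-(ch τ b - ch τ a)‖ ≤ 2 := by
      rw [norm_neg]
      refine (norm_sub_le _ _).trans ?_
      rw [norm_ch, norm_ch]; norm_num
    have h5 : ‖∑ n ∈ Ico a b, ch τ (n + 1) *
        (Complex.exp (((τ * hh n : ℝ) : ℂ) * Complex.I) - 1 - ((τ * hh n : ℝ) : ℂ) * Complex.I)‖ ≤
        2 * τ ^ 2 * (3 / a) := by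
      refine (norm_sum_le _ _).trans ?_
      refine le_trans ?_ (mul_le_mul_of_nonneg_left (sum_inv_sq ha hb) (by positivity))
      rw [Finset.mul_sum]
      refine Finset.sum_le_sum fun n hn => ?_
      have hn1 : 1 ≤ n := ha.trans (mem_Ico.1 hn).1
      rw [norm_mul, norm_ch, one_mul]
      refine (exp_two _).trans ?_
      rw [mul_pow]
      have := hh_sq hn1
      have h6 : τ ^ 2 * hh n ^ 2 ≤ τ ^ 2 * (1 / (n : ℝ) ^ 2) :=
        mul_le_mul_of_nonneg_left this (sq_nonneg τ)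
      linarith
    linarith
  have h3 : ‖∑ n ∈ Ico a b, ch τ (n + 1) * ((hh n : ℝ) : ℂ)‖ ≤ (2 + 2 * τ ^ 2 * (3 / a)) / |τ| := by
    rw [le_div_iff₀ hτ0]
    linarith
  refine h3.trans (le_of_eq ?_)
  rw [← sq_abs τ]
  field_simp
  ring

/-- a linear piece of the weight -/
theorem piece (τ : ℝ) (hτ : 1 ≤ |τ|) (w s : ℕ → ℝ) (S : ℝ) (hS : 1 ≤ S) {a b : ℕ} (ha : 1 ≤ a)
    (hab : a ≤ b) (hb : b ≤ 4 * a) (hw : ∀ n, a ≤ n → n < b → w (n + 1) - w n = hh n * s n)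
    (hs : |s b| ≤ S) (hds : ∀ n, a ≤ n → n < b → |s (n + 1) - s n| ≤ 4 / a) :
    ‖∑ n ∈ Ico a b, ch τ (n + 1) * ((w (n + 1) - w n : ℝ) : ℂ)‖ ≤
      (2 / |τ| + 6 * |τ| / a) * (S + 12) := by
  have hτ0 : 0 < |τ| := by linarith
  have ha0 : (0 : ℝ) < a := by exact_mod_cast ha
  have h1 : ∑ n ∈ Ico a b, ch τ (n + 1) * ((w (n + 1) - w n : ℝ) : ℂ) =
      ∑ n ∈ Ico a b, (ch τ (n + 1) * ((hh n : ℝ) : ℂ)) * ((s n : ℝ) : ℂ) := by
    refine Finset.sum_congr rfl fun n hn => ?_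
    rw [hw n (mem_Ico.1 hn).1 (mem_Ico.1 hn).2]
    push_cast
    ring
  rw [h1]
  refine abel_ico_le _ (fun n => ((s n : ℝ) : ℂ)) a b hab _ _ _ (by positivity) ?_ ?_ ?_
  · intro n h2 h3
    exact sum_ch_hh τ hτ ha h2 (h3.trans hb)
  · rw [Complex.norm_real, Real.norm_eq_abs]; exact hs
  · have h2 : ∀ n ∈ Ico a b, ‖(((s (n + 1) : ℝ) : ℂ) - ((s n : ℝ) : ℂ))‖ ≤ 4 / a := by
      intro n hn
      rw [← Complex.ofReal_sub, Complex.norm_real, Real.norm_eq_abs]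
      exact hds n (mem_Ico.1 hn).1 (mem_Ico.1 hn).2
    refine (Finset.sum_le_sum h2).trans ?_
    rw [Finset.sum_const, Nat.card_Ico, nsmul_eq_mul]
    have h3 : ((b - a : ℕ) : ℝ) ≤ 3 * a := by
      have : b - a ≤ 3 * a := by omega
      exact_mod_cast this
    calc ((b - a : ℕ) : ℝ) * (4 / a) ≤ (3 * a) * (4 / a) :=
          mul_le_mul_of_nonneg_right h3 (by positivity)
      _ = 12 := by field_simp; norm_num

/-- the tent on its two linear pieces -/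
theorem tnt_left {d n : ℕ} (h1 : 2 ^ d ≤ n) (h2 : n ≤ 2 * 2 ^ d) :
    tnt (d + 1) n = Real.logb 2 n - d := by
  have hn : 1 ≤ n := le_trans Nat.one_le_two_pow h1
  have hn0 : (0 : ℝ) < n := by exact_mod_cast hn
  have e1 : (d : ℝ) ≤ Real.logb 2 n := by
    rw [Real.le_logb_iff_rpow_le (by norm_num) hn0, Real.rpow_natCast]
    exact_mod_cast h1
  have e2 : Real.logb 2 n ≤ d + 1 := by
    rw [Real.logb_le_iff_le_rpow (by norm_num) hn0, show (d : ℝ) + 1 = ((d + 1 : ℕ) : ℝ) by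
      push_cast; ring, Real.rpow_natCast]
    have : n ≤ 2 ^ (d + 1) := by rw [pow_succ]; omega
    exact_mod_cast this
  unfold tnt
  push_cast
  rw [abs_of_nonpos (by linarith), max_eq_right (by linarith)]
  ring

theorem tnt_right {d n : ℕ} (h1 : 2 * 2 ^ d ≤ n) (h2 : n ≤ 4 * 2 ^ d) :
    tnt (d + 1) n = d + 2 - Real.logb 2 n := by
  have hpow : 1 ≤ 2 ^ d := Nat.one_le_two_pow
  have hn : 1 ≤ n := by omega
  have hn0 : (0 : ℝ) < n := by exact_mod_cast hn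
  have e1 : (d : ℝ) + 1 ≤ Real.logb 2 n := by
    rw [Real.le_logb_iff_rpow_le (by norm_num) hn0, show (d : ℝ) + 1 = ((d + 1 : ℕ) : ℝ) by
      push_cast; ring, Real.rpow_natCast]
    have : 2 ^ (d + 1) ≤ n := by rw [pow_succ]; omega
    exact_mod_cast this
  have e2 : Real.logb 2 n ≤ d + 2 := by
    rw [Real.logb_le_iff_le_rpow (by norm_num) hn0, show (d : ℝ) + 2 = ((d + 2 : ℕ) : ℝ) by
      push_cast; ring, Real.rpow_natCast]
    have : n ≤ 2 ^ (d + 2) := by rw [pow_add]; omega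
    exact_mod_cast this
  unfold tnt
  push_cast
  rw [abs_of_nonneg (by linarith), max_eq_right (by linarith)]
  ring

theorem logb_sub (n : ℕ) : Real.logb 2 ((n + 1 : ℕ) : ℝ) - Real.logb 2 n = hh n / Real.log 2 := by
  unfold hh Real.logb
  ring

/-- the weight has slope `h_n s(n)` on an interval where the tent is linear -/
theorem piece_w0 (τ : ℝ) (hτ : 1 ≤ |τ|) (i : Fin 8) (hi : 4 ≤ (i : ℕ)) (d a b : ℕ) (σ : ℝ)
    (hσ : |σ| = 1) (ha : 2 ^ d ≤ a) (hab : a ≤ b) (hb : b ≤ 2 * a) (hb' : b ≤ 4 * 2 ^ d)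
    (hlin : ∀ n, a ≤ n → n < b → tnt (d + 1) (n + 1) - tnt (d + 1) n = σ * (hh n / Real.log 2)) :
    ‖∑ n ∈ Ico a b, ch τ (n + 1) * ((w0 i (d + 1) (n + 1) - w0 i (d + 1) n : ℝ) : ℂ)‖ ≤
      (2 / |τ| + 6 * |τ| / 2 ^ d) * (15 * (1 + ((d + 1 : ℕ) : ℝ))) := by
  have hτ0 : 0 < |τ| := by linarith
  have ha1 : 1 ≤ a := le_trans Nat.one_le_two_pow ha
  have ha0 : (0 : ℝ) < a := by exact_mod_cast ha1
  have hd0 : (0 : ℝ) ≤ d := Nat.cast_nonneg d
  have hl2 : (1 / 2 : ℝ) < Real.log 2 := by have := Real.log_two_gt_d9; linarith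
  have hl2p : 0 < Real.log 2 := by linarith
  have har : (2 : ℝ) ^ d ≤ a := by exact_mod_cast ha
  have hfin : (2 / |τ| + 6 * |τ| / a) * (3 * (1 + ((d + 1 : ℕ) : ℝ)) + 12) ≤
      (2 / |τ| + 6 * |τ| / 2 ^ d) * (15 * (1 + ((d + 1 : ℕ) : ℝ))) := by
    refine mul_le_mul ?_ ?_ (by positivity) (by positivity)
    · have : 6 * |τ| / a ≤ 6 * |τ| / 2 ^ d :=
        div_le_div_of_nonneg_left (by positivity) (by positivity) har
      linarith
    · push_cast; linarith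
  have hlog1 : Real.log ((b + 1 : ℕ) : ℝ) ≤ (d + 3) * Real.log 2 := by
    have h1 : ((b + 1 : ℕ) : ℝ) ≤ (2 : ℝ) ^ (d + 3) := by
      have h2 : b + 1 ≤ 2 ^ (d + 3) := by
        have : 2 ^ (d + 3) = 8 * 2 ^ d := by ring
        have h3 : 1 ≤ 2 ^ d := Nat.one_le_two_pow
        omega
      exact_mod_cast h2
    have h2 := Real.log_le_log (by positivity) h1
    rw [Real.log_pow] at h2
    push_cast at h2 ⊢
    linarith
  have hlogb : 0 ≤ Real.log ((b + 1 : ℕ) : ℝ) :=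
    Real.log_nonneg (by exact_mod_cast (by omega : 1 ≤ b + 1))
  have htb0 := tnt_nonneg (d + 1) b
  have htb1 := tnt_le_one (d + 1) b
  refine le_trans ?_ hfin
  rcases w0_smooth' i hi with hw | hw
  · -- tent times logarithm
    refine piece τ hτ (w0 i (d + 1))
      (fun n => σ * Real.log ((n + 1 : ℕ) : ℝ) / Real.log 2 + tnt (d + 1) n)
      (3 * (1 + ((d + 1 : ℕ) : ℝ))) (by push_cast; linarith) ha1 hab (by omega) ?_ ?_ ?_
    · intro n h1 h2
      rw [hw, hw]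
      have h3 := hlin n h1 h2
      have h4 : Real.log ((n + 1 : ℕ) : ℝ) = Real.log n + hh n := by unfold hh; ring
      have h5 : tnt (d + 1) (n + 1) = tnt (d + 1) n + σ * (hh n / Real.log 2) := by linarith
      rw [h5, h4]
      ring
    · refine (abs_add_le _ _).trans ?_
      rw [abs_div, abs_mul, hσ, one_mul, abs_of_nonneg hlogb, abs_of_pos hl2p, abs_of_nonneg htb0]
      have h1 : Real.log ((b + 1 : ℕ) : ℝ) / Real.log 2 ≤ d + 3 := by
        rw [div_le_iff₀ hl2p]; exact hlog1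
      have h2 : ((d + 1 : ℕ) : ℝ) = d + 1 := by push_cast; ring
      rw [h2]
      linarith
    · intro n h1 h2
      have hn1 : 1 ≤ n := ha1.trans h1
      have hn0 : (0 : ℝ) < n := by exact_mod_cast hn1
      have han : (a : ℝ) ≤ n := by exact_mod_cast h1
      have h3 : (σ * Real.log ((n + 1 + 1 : ℕ) : ℝ) / Real.log 2 + tnt (d + 1) (n + 1)) -
          (σ * Real.log ((n + 1 : ℕ) : ℝ) / Real.log 2 + tnt (d + 1) n)
          = σ * (hh (n + 1) / Real.log 2) + (tnt (d + 1) (n + 1) - tnt (d + 1) n) := by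
        unfold hh; ring
      show |(σ * Real.log ((n + 1 + 1 : ℕ) : ℝ) / Real.log 2 + tnt (d + 1) (n + 1)) -
          (σ * Real.log ((n + 1 : ℕ) : ℝ) / Real.log 2 + tnt (d + 1) n)| ≤ _
      rw [h3]
      refine (abs_add_le _ _).trans ?_
      have h4 := tnt_lip (d + 1) n hn1
      have h5 := hh_upper (n := n + 1) (by omega)
      have h6 := hh_nonneg (n := n + 1) (by omega)
      have h7 : hh (n + 1) / Real.log 2 ≤ 2 / n := by
        rw [div_le_div_iff₀ hl2p hn0]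
        have h8 : (1 : ℝ) / ((n + 1 : ℕ) : ℝ) ≤ 1 / n :=
          one_div_le_one_div_of_le hn0 (by push_cast; linarith)
        have h9 : hh (n + 1) * n ≤ 1 := by
          calc hh (n + 1) * n ≤ 1 / n * n := mul_le_mul_of_nonneg_right (h5.trans h8) hn0.le
            _ = 1 := by field_simp
        linarith
      rw [abs_mul, hσ, one_mul, abs_of_nonneg (by positivity)]
      have h8 : (2 : ℝ) / n ≤ 2 / a := div_le_div_of_nonneg_left (by norm_num) ha0 han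
      have h9 : (4 : ℝ) / a = 2 / a + 2 / a := by ring
      rw [h9]
      linarith
  · -- tent
    refine piece τ hτ (w0 i (d + 1)) (fun _ => σ / Real.log 2)
      (3 * (1 + ((d + 1 : ℕ) : ℝ))) (by push_cast; linarith) ha1 hab (by omega) ?_ ?_ ?_
    · intro n h1 h2
      rw [hw, hw, hlin n h1 h2]
      ring
    · rw [abs_div, hσ, abs_of_pos hl2p, div_le_iff₀ hl2p]
      push_cast
      nlinarith
    · intro n _ _
      simp only [sub_self, abs_zero]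
      positivity

/-- the weight vanishes at the right end -/
theorem w0_end (i : Fin 8) (hi : 4 ≤ (i : ℕ)) (d : ℕ) : w0 i (d + 1) (4 * 2 ^ d) = 0 := by
  have h1 : tnt (d + 1) (4 * 2 ^ d) = 0 := by
    rw [tnt_right (by omega) le_rfl]
    have h2 : Real.logb 2 ((4 * 2 ^ d : ℕ) : ℝ) = d + 2 := by
      have h3 : ((4 * 2 ^ d : ℕ) : ℝ) = 2 ^ (d + 2) := by push_cast; ring
      rw [h3, Real.logb_pow, Real.logb_self_eq_one (by norm_num)]
      push_cast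
      ring
    rw [h2]; ring
  rcases w0_smooth i hi (d + 1) (4 * 2 ^ d) with h3 | h3
  · rw [h3, h1, zero_mul]
  · rw [h3, h1]

/-- the sum over one tent -/
theorem sum_tent (τ : ℝ) (hτ : 1 ≤ |τ|) (i : Fin 8) (hi : 4 ≤ (i : ℕ)) (d : ℕ) :
    ‖∑ n ∈ Ico (2 ^ d : ℕ) (4 * 2 ^ d), ch τ n * ((gW i (d + 1) n : ℝ) : ℂ)‖ ≤
      (1 + ((d + 1 : ℕ) : ℝ)) * (60 / τ ^ 2 + 189 * |τ| / 2 ^ d) := by
  have hτ0 : 0 < |τ| := by linarith
  set a : ℕ := 2 ^ d with ha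
  have har : ((a : ℕ) : ℝ) = 2 ^ d := by rw [ha]; push_cast; ring
  have ha1 : 1 ≤ a := Nat.one_le_two_pow
  have ha0 : (0 : ℝ) < a := by exact_mod_cast ha1
  have hd0 : (0 : ℝ) ≤ ((d + 1 : ℕ) : ℝ) := Nat.cast_nonneg _
  set w := w0 i (d + 1) with hw
  have h4a : 4 * a = 2 ^ (d + 2) := by rw [ha]; ring
  have hwa : w a = 0 := w0_zero i hi ha1 le_rfl
  have hwb : w (4 * a) = 0 := by
    have h1 : tnt (d + 1) (4 * a) = 0 := by
      rw [tnt_right (by rw [← ha]; omega) (by rw [← ha])]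
      have h2 : Real.logb 2 ((4 * a : ℕ) : ℝ) = d + 2 := by
        rw [h4a]
        push_cast
        rw [Real.logb_pow, Real.logb_self_eq_one (by norm_num)]
        push_cast
        ring
      rw [h2]; ring
    rcases w0_smooth i hi (d + 1) (4 * a) with h3 | h3
    · rw [hw, h3, h1, zero_mul]
    · rw [hw, h3, h1]
  -- two pieces
  have hp1 : ‖∑ n ∈ Ico a (2 * a), ch τ (n + 1) * ((w (n + 1) - w n : ℝ) : ℂ)‖ ≤
      (2 / |τ| + 6 * |τ| / 2 ^ d) * (15 * (1 + ((d + 1 : ℕ) : ℝ))) := by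
    refine piece_w0 τ hτ i hi d a (2 * a) 1 (by simp) (by rw [ha]) (by omega) le_rfl
      (by omega) ?_
    intro n h1 h2
    rw [tnt_left (by omega) (by omega), tnt_left (by omega) (by omega), ← logb_sub]
    ring
  have hp2 : ‖∑ n ∈ Ico (2 * a) (4 * a), ch τ (n + 1) * ((w (n + 1) - w n : ℝ) : ℂ)‖ ≤
      (2 / |τ| + 6 * |τ| / 2 ^ d) * (15 * (1 + ((d + 1 : ℕ) : ℝ))) := by
    refine piece_w0 τ hτ i hi d (2 * a) (4 * a) (-1) (by simp) (by rw [ha]; omega) (by omega)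
      (by omega) (by omega) ?_
    intro n h1 h2
    rw [tnt_right (by omega) (by omega), tnt_right (by omega) (by omega), ← logb_sub]
    ring
  -- summation by parts
  have hparts : ∑ n ∈ Ico a (4 * a), ((w n : ℝ) : ℂ) * (ch τ (n + 1) - ch τ n) =
      - ((∑ n ∈ Ico a (2 * a), ch τ (n + 1) * ((w (n + 1) - w n : ℝ) : ℂ)) +
        ∑ n ∈ Ico (2 * a) (4 * a), ch τ (n + 1) * ((w (n + 1) - w n : ℝ) : ℂ)) := by
    rw [Finset.sum_Ico_consecutive _ (by omega) (by omega)]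
    have h1 := Finset.sum_Ico_sub (fun n => ((w n : ℝ) : ℂ) * ch τ n) (show a ≤ 4 * a by omega)
    rw [hwa, hwb] at h1
    simp only [Complex.ofReal_zero, zero_mul, sub_zero] at h1
    have h2 : ∑ n ∈ Ico a (4 * a), ((w n : ℝ) : ℂ) * (ch τ (n + 1) - ch τ n) +
        ∑ n ∈ Ico a (4 * a), ch τ (n + 1) * ((w (n + 1) - w n : ℝ) : ℂ) = 0 := by
      rw [← Finset.sum_add_distrib, ← h1]
      refine Finset.sum_congr rfl fun n _ => ?_
      push_cast
      ring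
    linear_combination h2
  -- replacing `-iτ/n` by the difference
  have hmain : ((τ : ℝ) : ℂ) * Complex.I * ∑ n ∈ Ico a (4 * a), ch τ n * ((gW i (d + 1) n : ℝ) : ℂ) =
      - ∑ n ∈ Ico a (4 * a), ((w n : ℝ) : ℂ) * (ch τ (n + 1) - ch τ n) +
      ∑ n ∈ Ico a (4 * a), ((w n : ℝ) : ℂ) * ch τ n *
        (((τ : ℝ) : ℂ) * Complex.I * ((1 / n - hh n : ℝ) : ℂ) +
          (Complex.exp (((-(τ * hh n) : ℝ) : ℂ) * Complex.I) - 1 -
            ((-(τ * hh n) : ℝ) : ℂ) * Complex.I)) := by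
    rw [← Finset.sum_neg_distrib, ← Finset.sum_add_distrib, Finset.mul_sum]
    refine Finset.sum_congr rfl fun n hn => ?_
    rw [ch_succ]
    unfold gW
    rw [← hw]
    push_cast
    ring
  have herr : ‖∑ n ∈ Ico a (4 * a), ((w n : ℝ) : ℂ) * ch τ n *
        (((τ : ℝ) : ℂ) * Complex.I * ((1 / n - hh n : ℝ) : ℂ) +
          (Complex.exp (((-(τ * hh n) : ℝ) : ℂ) * Complex.I) - 1 -
            ((-(τ * hh n) : ℝ) : ℂ) * Complex.I))‖ ≤
      (1 + ((d + 1 : ℕ) : ℝ)) * (3 * τ ^ 2) * (3 / a) := by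
    refine (norm_sum_le _ _).trans ?_
    refine le_trans ?_ (mul_le_mul_of_nonneg_left (sum_inv_sq ha1 (le_refl (4 * a)))
      (by positivity))
    rw [Finset.mul_sum]
    refine Finset.sum_le_sum fun n hn => ?_
    obtain ⟨hn1, hn2⟩ := mem_Ico.1 hn
    have hn3 : 1 ≤ n := ha1.trans hn1
    have hn0 : (0 : ℝ) < n := by exact_mod_cast hn3
    rw [norm_mul, norm_mul, norm_ch, mul_one, Complex.norm_real, Real.norm_eq_abs]
    have h1 : |w n| ≤ 1 + ((d + 1 : ℕ) : ℝ) := w0_abs i hi hn3 (by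
      show n ≤ 2 ^ (d + 2)
      omega)
    have h2 : ‖((τ : ℝ) : ℂ) * Complex.I * ((1 / n - hh n : ℝ) : ℂ) +
          (Complex.exp (((-(τ * hh n) : ℝ) : ℂ) * Complex.I) - 1 -
            ((-(τ * hh n) : ℝ) : ℂ) * Complex.I)‖ ≤ 3 * τ ^ 2 * (1 / (n : ℝ) ^ 2) := by
      refine (norm_add_le _ _).trans ?_
      have h3 := exp_two (-(τ * hh n))
      have h4 : 2 * (-(τ * hh n)) ^ 2 ≤ 2 * τ ^ 2 * (1 / (n : ℝ) ^ 2) := by
        have h5 := hh_sq hn3
        have h6 : τ ^ 2 * hh n ^ 2 ≤ τ ^ 2 * (1 / (n : ℝ) ^ 2) :=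
          mul_le_mul_of_nonneg_left h5 (sq_nonneg τ)
        have h7 : (-(τ * hh n)) ^ 2 = τ ^ 2 * hh n ^ 2 := by ring
        rw [h7]
        linarith
      have h5 : ‖((τ : ℝ) : ℂ) * Complex.I * ((1 / n - hh n : ℝ) : ℂ)‖ ≤
          τ ^ 2 * (1 / (n : ℝ) ^ 2) := by
        rw [norm_mul, norm_mul, Complex.norm_I, mul_one, Complex.norm_real, Complex.norm_real,
          Real.norm_eq_abs, Real.norm_eq_abs]
        have h6 := hh_upper hn3
        have h7 := hh_lower hn3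
        rw [abs_of_nonneg (show (0 : ℝ) ≤ 1 / n - hh n by linarith)]
        have h8 : 1 / (n : ℝ) - hh n ≤ 1 / (n : ℝ) ^ 2 := by
          have h9 : 1 / (n : ℝ) - 1 / ((n : ℝ) + 1) ≤ 1 / (n : ℝ) ^ 2 := by
            rw [div_sub_div _ _ (by positivity) (by positivity), div_le_div_iff₀ (by positivity)
              (by positivity)]
            nlinarith
          linarith
        have h9 : |τ| ≤ τ ^ 2 := by
          rw [← sq_abs]; nlinarith
        exact mul_le_mul h9 h8 (by linarith) (sq_nonneg τ)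
      linarith
    calc |w n| * _ ≤ (1 + ((d + 1 : ℕ) : ℝ)) * (3 * τ ^ 2 * (1 / (n : ℝ) ^ 2)) :=
          mul_le_mul h1 h2 (norm_nonneg _) (by positivity)
      _ = (1 + ((d + 1 : ℕ) : ℝ)) * (3 * τ ^ 2) * (1 / (n : ℝ) ^ 2) := by ring
  -- conclusion
  have hfin : |τ| * ‖∑ n ∈ Ico a (4 * a), ch τ n * ((gW i (d + 1) n : ℝ) : ℂ)‖ ≤
      2 * ((2 / |τ| + 6 * |τ| / 2 ^ d) * (15 * (1 + ((d + 1 : ℕ) : ℝ)))) +
        (1 + ((d + 1 : ℕ) : ℝ)) * (3 * τ ^ 2) * (3 / a) := by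
    have h3 := congrArg norm hmain
    rw [norm_mul, norm_mul, Complex.norm_I, mul_one, Complex.norm_real, Real.norm_eq_abs] at h3
    rw [h3]
    refine (norm_add_le _ _).trans (add_le_add ?_ herr)
    rw [hparts, neg_neg]
    refine (norm_add_le _ _).trans ?_
    linarith
  have h5 : ‖∑ n ∈ Ico a (4 * a), ch τ n * ((gW i (d + 1) n : ℝ) : ℂ)‖ ≤
      (2 * ((2 / |τ| + 6 * |τ| / 2 ^ d) * (15 * (1 + ((d + 1 : ℕ) : ℝ)))) +
        (1 + ((d + 1 : ℕ) : ℝ)) * (3 * τ ^ 2) * (3 / a)) / |τ| := by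
    rw [le_div_iff₀ hτ0]
    linarith
  refine h5.trans ?_
  rw [← har]
  have h6 : (2 * ((2 / |τ| + 6 * |τ| / a) * (15 * (1 + ((d + 1 : ℕ) : ℝ)))) +
        (1 + ((d + 1 : ℕ) : ℝ)) * (3 * τ ^ 2) * (3 / a)) / |τ| =
      (1 + ((d + 1 : ℕ) : ℝ)) * (60 / τ ^ 2 + (180 + 9 * |τ|) / a) := by
    rw [← sq_abs τ]
    field_simp
    ring
  rw [h6]
  refine mul_le_mul_of_nonneg_left ?_ (by positivity)
  have h7 : (180 + 9 * |τ|) / a ≤ 189 * |τ| / a :=
    div_le_div_of_nonneg_right (by linarith) ha0.le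
  linarith

end Pool.Agent.Helper93.GW
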