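import Pool.Agent.Helper63.GW.StA
import Pool.Agent.Helper64.GK.Parts

/-!
# Project GW: the weights of the smooth variables, partial summation
-/

set_option autoImplicit false

namespace Pool.Agent.Helper93.GW

open Finset ArithmeticFunction MeasureTheory
open Pool.Agent.Helper48.BK (ex th Sx Apx)
open Pool.Agent.Helper2.MR (ch)
open Pool.Agent.Helper15.AB (IsW)
open Pool.Agent.Helper23.GK
open Pool.Agent.Helper63.GW

/-- partial summation with a weight of bounded variation -/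
theorem abel_bv (c : ℕ → ℂ) (g : ℕ → ℝ) (M N : ℕ) (hMN : M ≤ N) (D V G : ℝ) (hD : 0 ≤ D)
    (hS : ∀ n, M ≤ n → n ≤ N → ‖∑ m ∈ Ioc M n, c m‖ ≤ D) (hG : |g N| ≤ G)
    (hV : ∑ n ∈ Ico M N, |g (n + 1) - g n| ≤ V) :
    ‖∑ n ∈ Ioc M N, c n * (g n : ℂ)‖ ≤ D * (G + V) := by
  rw [Pool.Agent.Helper64.GK.abel_id c g M N hMN]
  refine (norm_sub_le _ _).trans ?_
  have h1 : ‖(∑ n ∈ Ioc M N, c n) * (g N : ℂ)‖ ≤ D * G := by
    rw [norm_mul, Complex.norm_real, Real.norm_eq_abs]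
    exact mul_le_mul (hS N hMN le_rfl) hG (abs_nonneg _) hD
  have h2 : ‖∑ n ∈ Ico M N, (∑ m ∈ Ioc M n, c m) * ((g (n + 1) - g n : ℝ) : ℂ)‖ ≤ D * V := by
    refine (norm_sum_le _ _).trans ?_
    refine le_trans ?_ (mul_le_mul_of_nonneg_left hV hD)
    rw [Finset.mul_sum]
    refine Finset.sum_le_sum fun n hn => ?_
    obtain ⟨h3, h4⟩ := mem_Ico.1 hn
    rw [norm_mul, Complex.norm_real, Real.norm_eq_abs]
    exact mul_le_mul_of_nonneg_right (hS n h3 h4.le) (abs_nonneg _)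
  linarith

theorem tnt_nonneg (e n : ℕ) : 0 ≤ tnt e n := le_max_left _ _

theorem tnt_le_one (e n : ℕ) : tnt e n ≤ 1 := by
  unfold tnt
  refine max_le zero_le_one ?_
  have := abs_nonneg (Real.logb 2 n - e)
  linarith

/-- `tnt` is Lipschitz in `log_2 n` -/
theorem tnt_lip (e n : ℕ) (hn : 1 ≤ n) : |tnt e (n + 1) - tnt e n| ≤ 2 / n := by
  have hn0 : (0 : ℝ) < n := by exact_mod_cast hn
  have h1 : |tnt e (n + 1) - tnt e n| ≤ |Real.logb 2 ((n + 1 : ℕ) : ℝ) - Real.logb 2 n| := by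
    unfold tnt
    rw [max_comm (0 : ℝ), max_comm (0 : ℝ)]
    refine (abs_max_sub_max_le_abs _ _ _).trans ?_
    have e1 : (1 - |Real.logb 2 ((n + 1 : ℕ) : ℝ) - e|) - (1 - |Real.logb 2 (n : ℝ) - e|)
        = |Real.logb 2 (n : ℝ) - e| - |Real.logb 2 ((n + 1 : ℕ) : ℝ) - e| := by ring
    rw [e1]
    refine (abs_abs_sub_abs_le_abs_sub _ _).trans ?_
    rw [abs_sub_comm]
    apply le_of_eq
    congr 1
    ring
  refine h1.trans ?_
  rw [← Real.logb_div (by positivity) hn0.ne']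
  have h2 : (1 : ℝ) ≤ ((n + 1 : ℕ) : ℝ) / n := by
    rw [le_div_iff₀ hn0]; push_cast; linarith
  rw [abs_of_nonneg (Real.logb_nonneg (by norm_num) h2), Real.logb]
  have h3 : Real.log (((n + 1 : ℕ) : ℝ) / n) ≤ 1 / n := by
    have h4 := Real.log_le_sub_one_of_pos (show (0 : ℝ) < ((n + 1 : ℕ) : ℝ) / n by positivity)
    have h5 : ((n + 1 : ℕ) : ℝ) / n - 1 = 1 / n := by
      push_cast; field_simp; ring
    linarith
  have hl2 : (1 / 2 : ℝ) < Real.log 2 := by have := Real.log_two_gt_d9; linarith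
  rw [div_le_div_iff₀ (by linarith) hn0]
  have h6 : Real.log (((n + 1 : ℕ) : ℝ) / n) * n ≤ 1 := by
    calc Real.log (((n + 1 : ℕ) : ℝ) / n) * n ≤ 1 / n * n :=
          mul_le_mul_of_nonneg_right h3 hn0.le
      _ = 1 := by field_simp
  linarith

theorem log_lip (n : ℕ) (hn : 1 ≤ n) : |Real.log ((n + 1 : ℕ) : ℝ) - Real.log n| ≤ 1 / n := by
  have hn0 : (0 : ℝ) < n := by exact_mod_cast hn
  rw [← Real.log_div (by positivity) hn0.ne']
  have h2 : (1 : ℝ) ≤ ((n + 1 : ℕ) : ℝ) / n := by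
    rw [le_div_iff₀ hn0]; push_cast; linarith
  rw [abs_of_nonneg (Real.log_nonneg h2)]
  have h4 := Real.log_le_sub_one_of_pos (show (0 : ℝ) < ((n + 1 : ℕ) : ℝ) / n by positivity)
  have h5 : ((n + 1 : ℕ) : ℝ) / n - 1 = 1 / n := by
    push_cast; field_simp; ring
  linarith

/-- for `n ≤ 2^(e+1)`: `log n ≤ 1 + e` -/
theorem log_le_e {e n : ℕ} (hn : 1 ≤ n) (h : n ≤ 2 ^ (e + 1)) : Real.log n ≤ 1 + e := by
  have hn0 : (0 : ℝ) < n := by exact_mod_cast hn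
  have h1 : Real.log n ≤ Real.log ((2 : ℝ) ^ (e + 1)) :=
    Real.log_le_log hn0 (by exact_mod_cast h)
  rw [Real.log_pow] at h1
  have h2 : Real.log 2 < 1 := by have := Real.log_two_lt_d9; linarith
  push_cast at h1
  have h3 : (0 : ℝ) ≤ e := Nat.cast_nonneg e
  nlinarith

/-- the weight of a smooth variable -/
theorem w0_smooth (i : Fin 8) (hi : 4 ≤ (i : ℕ)) (e n : ℕ) :
    w0 i e n = tnt e n * Real.log n ∨ w0 i e n = tnt e n := by
  unfold w0
  rw [if_neg (by omega)]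
  by_cases h : (i : ℕ) = 4
  · left; rw [if_pos h]
  · right; rw [if_neg h]

/-- which of the two does not depend on `n` -/
theorem w0_smooth' (i : Fin 8) (hi : 4 ≤ (i : ℕ)) :
    (∀ e n, w0 i e n = tnt e n * Real.log n) ∨ (∀ e n, w0 i e n = tnt e n) := by
  by_cases h : (i : ℕ) = 4
  · left; intro e n; unfold w0; rw [if_neg (by omega), if_pos h]
  · right; intro e n; unfold w0; rw [if_neg (by omega), if_neg h]

theorem w0_abs (i : Fin 8) (hi : 4 ≤ (i : ℕ)) {e n : ℕ} (hn : 1 ≤ n) (h : n ≤ 2 ^ (e + 1)) :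
    |w0 i e n| ≤ 1 + e := by
  have h1 := tnt_nonneg e n
  have h2 := tnt_le_one e n
  have hl0 : 0 ≤ Real.log n := Real.log_nonneg (by exact_mod_cast hn)
  have hl := log_le_e hn h
  have he : (0 : ℝ) ≤ e := Nat.cast_nonneg e
  rcases w0_smooth i hi e n with h3 | h3
  · rw [h3, abs_of_nonneg (mul_nonneg h1 hl0)]
    nlinarith
  · rw [h3, abs_of_nonneg h1]
    linarith

theorem w0_lip (i : Fin 8) (hi : 4 ≤ (i : ℕ)) {e n : ℕ} (hn : 1 ≤ n) (h : n + 1 ≤ 2 ^ (e + 1)) :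
    |w0 i e (n + 1) - w0 i e n| ≤ 3 * (1 + e) / n := by
  have hn0 : (0 : ℝ) < n := by exact_mod_cast hn
  have h1 := tnt_nonneg e n
  have h2 := tnt_le_one e n
  have ht := tnt_lip e n hn
  have hlip := log_lip n hn
  have he : (0 : ℝ) ≤ e := Nat.cast_nonneg e
  have hl := log_le_e (e := e) (n := n + 1) (by omega) h
  have hl0 : 0 ≤ Real.log ((n + 1 : ℕ) : ℝ) := Real.log_nonneg (by exact_mod_cast (by omega : 1 ≤ n + 1))
  rcases w0_smooth' i hi with h3 | h3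
  · rw [h3, h3]
    have e1 : tnt e (n + 1) * Real.log ((n + 1 : ℕ) : ℝ) - tnt e n * Real.log n
        = (tnt e (n + 1) - tnt e n) * Real.log ((n + 1 : ℕ) : ℝ)
          + tnt e n * (Real.log ((n + 1 : ℕ) : ℝ) - Real.log n) := by ring
    rw [e1]
    refine (abs_add_le _ _).trans ?_
    rw [abs_mul, abs_mul, abs_of_nonneg hl0, abs_of_nonneg h1]
    have h4 : |tnt e (n + 1) - tnt e n| * Real.log ((n + 1 : ℕ) : ℝ) ≤ 2 / n * (1 + e) :=
      mul_le_mul ht hl hl0 (by positivity)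
    have h5 : tnt e n * |Real.log ((n + 1 : ℕ) : ℝ) - Real.log n| ≤ 1 * (1 / n) :=
      mul_le_mul h2 hlip (abs_nonneg _) zero_le_one
    have h6 : (1 : ℝ) * (1 / n) ≤ (1 + e) / n := by
      rw [one_mul]
      exact div_le_div_of_nonneg_right (by linarith) hn0.le
    have h7 : 2 / (n : ℝ) * (1 + e) + (1 + e) / n = 3 * (1 + e) / n := by ring
    linarith
  · rw [h3, h3]
    refine ht.trans ?_
    exact div_le_div_of_nonneg_right (by linarith) hn0.le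

/-- the weight `w0 / n` -/
noncomputable def gW (i : Fin 8) (e n : ℕ) : ℝ := w0 i e n / n

theorem gW_abs (i : Fin 8) (hi : 4 ≤ (i : ℕ)) {e n : ℕ} (hn : 1 ≤ n) (h : n ≤ 2 ^ (e + 1)) :
    |gW i e n| ≤ (1 + e) / n := by
  have hn0 : (0 : ℝ) < n := by exact_mod_cast hn
  unfold gW
  rw [abs_div, abs_of_pos hn0]
  exact div_le_div_of_nonneg_right (w0_abs i hi hn h) hn0.le

theorem gW_lip (i : Fin 8) (hi : 4 ≤ (i : ℕ)) {e n : ℕ} (hn : 1 ≤ n) (h : n + 1 ≤ 2 ^ (e + 1)) :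
    |gW i e (n + 1) - gW i e n| ≤ 4 * (1 + e) / n ^ 2 := by
  have hn0 : (0 : ℝ) < n := by exact_mod_cast hn
  have he : (0 : ℝ) ≤ e := Nat.cast_nonneg e
  have h1 := w0_lip i hi hn h
  have h2 := w0_abs i hi hn (by omega : n ≤ 2 ^ (e + 1))
  unfold gW
  have e1 : w0 i e (n + 1) / ((n + 1 : ℕ) : ℝ) - w0 i e n / n
      = (w0 i e (n + 1) - w0 i e n) / ((n + 1 : ℕ) : ℝ) - w0 i e n / (n * ((n + 1 : ℕ) : ℝ)) := by
    have : ((n + 1 : ℕ) : ℝ) ≠ 0 := by positivity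
    push_cast at this ⊢
    field_simp
    ring
  rw [e1]
  refine (abs_sub _ _).trans ?_
  rw [abs_div, abs_div, abs_of_pos (show (0 : ℝ) < ((n + 1 : ℕ) : ℝ) by positivity),
    abs_of_pos (show (0 : ℝ) < n * ((n + 1 : ℕ) : ℝ) by positivity)]
  have hnn : (n : ℝ) ≤ ((n + 1 : ℕ) : ℝ) := by push_cast; linarith
  have h3 : |w0 i e (n + 1) - w0 i e n| / ((n + 1 : ℕ) : ℝ) ≤ 3 * (1 + e) / n / n :=
    div_le_div₀ (by positivity) h1 hn0 hnn
  have h4 : |w0 i e n| / (n * ((n + 1 : ℕ) : ℝ)) ≤ (1 + e) / (n * n) :=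
    div_le_div₀ (by positivity) h2 (by positivity) (mul_le_mul_of_nonneg_left hnn hn0.le)
  have h5 : 3 * (1 + (e : ℝ)) / n / n + (1 + e) / (n * n) = 4 * (1 + e) / n ^ 2 := by
    field_simp
    ring
  linarith

/-- the weight vanishes below `2^(e-1)` (`e ≥ 1`) -/
theorem w0_zero (i : Fin 8) (hi : 4 ≤ (i : ℕ)) {d n : ℕ} (hn : 1 ≤ n) (h : n ≤ 2 ^ d) :
    w0 i (d + 1) n = 0 := by
  have hn0 : (0 : ℝ) < n := by exact_mod_cast hn
  have h1 : Real.logb 2 n ≤ d := by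
    rw [Real.logb_le_iff_le_rpow (by norm_num) hn0, Real.rpow_natCast]
    exact_mod_cast h
  have h2 : tnt (d + 1) n = 0 := by
    unfold tnt
    apply max_eq_left
    push_cast
    rw [abs_of_nonpos (by linarith)]
    linarith
  rcases w0_smooth i hi (d + 1) n with h3 | h3
  · rw [h3, h2, zero_mul]
  · rw [h3, h2]

/-- total variation of the weight on the support -/
theorem gW_var (i : Fin 8) (hi : 4 ≤ (i : ℕ)) (d M N : ℕ) (hM : 2 ^ d ≤ M) (hMN : M ≤ N)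
    (hN : N ≤ 2 ^ (d + 2)) :
    ∑ n ∈ Ico M N, |gW i (d + 1) (n + 1) - gW i (d + 1) n| ≤ 16 * (1 + ((d + 1 : ℕ) : ℝ)) / 2 ^ d := by
  have hp : (0 : ℝ) < 2 ^ d := by positivity
  have h1 : ∀ n ∈ Ico M N, |gW i (d + 1) (n + 1) - gW i (d + 1) n|
      ≤ 4 * (1 + ((d + 1 : ℕ) : ℝ)) / (2 ^ d) ^ 2 := by
    intro n hn
    obtain ⟨h2, h3⟩ := mem_Ico.1 hn
    have h4 : 2 ^ d ≤ n := hM.trans h2
    have h5 : 1 ≤ n := le_trans Nat.one_le_two_pow h4
    refine (gW_lip i hi h5 (by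
      show n + 1 ≤ 2 ^ (d + 2)
      omega)).trans ?_
    have h6 : (2 : ℝ) ^ d ≤ n := by exact_mod_cast h4
    exact div_le_div_of_nonneg_left (by positivity) (by positivity)
      (pow_le_pow_left₀ hp.le h6 2)
  refine (Finset.sum_le_sum h1).trans ?_
  rw [Finset.sum_const, Nat.card_Ico, nsmul_eq_mul]
  have h7 : ((N - M : ℕ) : ℝ) ≤ 4 * 2 ^ d := by
    have : N - M ≤ 4 * 2 ^ d := by
      have : 2 ^ (d + 2) = 4 * 2 ^ d := by ring
      omega
    exact_mod_cast this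
  calc ((N - M : ℕ) : ℝ) * (4 * (1 + ((d + 1 : ℕ) : ℝ)) / (2 ^ d) ^ 2)
      ≤ (4 * 2 ^ d) * (4 * (1 + ((d + 1 : ℕ) : ℝ)) / (2 ^ d) ^ 2) :=
        mul_le_mul_of_nonneg_right h7 (by positivity)
    _ = 16 * (1 + ((d + 1 : ℕ) : ℝ)) / 2 ^ d := by
        field_simp
        ring

/-- the block of a smooth variable as a sum with the weight `gW` -/
theorem bk_eq {q : ℕ} (χ : DirichletCharacter ℂ q) (i : Fin 8) (hi : 4 ≤ (i : ℕ)) (d : ℕ) (τ : ℝ) :
    bk χ i (d + 1) τ = ∑ n ∈ Ioc (2 ^ d : ℕ) (2 ^ (d + 2)),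
      (χ ((n : ℕ) : ZMod q) * ch τ n) * ((gW i (d + 1) n : ℝ) : ℂ) := by
  unfold bk
  have h1 : Icc 1 (2 ^ (d + 1 + 1)) = Ioc 0 (2 ^ d) ∪ Ioc (2 ^ d) (2 ^ (d + 2)) := by
    have h2 : 2 ^ d ≤ 2 ^ (d + 2) := Nat.pow_le_pow_right (by norm_num) (by omega)
    have h3 : 2 ^ (d + 1 + 1) = 2 ^ (d + 2) := rfl
    ext n
    simp only [mem_Icc, mem_union, mem_Ioc, h3]
    omega
  rw [h1, Finset.sum_union]
  · rw [Finset.sum_eq_zero, zero_add]
    · refine Finset.sum_congr rfl fun n _ => ?_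
      unfold gW
      push_cast
      ring
    · intro n hn
      obtain ⟨h2, h3⟩ := mem_Ioc.1 hn
      rw [w0_zero i hi (by omega) h3]
      simp
  · rw [Finset.disjoint_left]
    intro n hn hn'
    have h2 := (mem_Ioc.1 hn).2
    have h3 := (mem_Ioc.1 hn').1
    omega

end Pool.Agent.Helper93.GW
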